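import Pool.Agent.Helper98.EY.StmtsB
import Pool.Agent.Helper53.EX.GS

set_option autoImplicit false

/-! # Modified left rates (module CAPM) -/

namespace Pool.Agent.Helper98.EX

open Finset

theorem capm_pow {N : ℕ} (hN : 1 ≤ N) (k : ℕ) :
    (N : ℝ) ^ (-(k : ℝ)) = ((N : ℝ) ^ k)⁻¹ := by
  rw [Real.rpow_neg (by positivity), Real.rpow_natCast]

theorem capm_lower {N : ℕ} {r l : ℕ → ℝ} (hA : Adm N r l) {z x : ℕ} (hx : x < N) :
    RR r l z x ≤ RR r (modl N l) z x := by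
  unfold RR modl
  refine Finset.prod_le_prod ?_ ?_
  · intro b hb
    rw [Finset.mem_Ioc] at hb
    obtain ⟨h1, -, h3, -⟩ := hA b (by omega) (by omega)
    exact div_nonneg h3 h1.le
  · intro b hb
    rw [Finset.mem_Ioc] at hb
    obtain ⟨h1, -, h3, -⟩ := hA b (by omega) (by omega)
    exact div_le_div_of_nonneg_right (le_max_left _ _) h1.le

theorem capm_div {a u v ρ : ℝ} (ha : 2 ≤ a) (h1 : u ≤ v) (h2 : v ≤ u + (a ^ 90)⁻¹)
    (h3 : (a ^ 2)⁻¹ ≤ ρ) : u / ρ ≤ v / ρ ∧ v / ρ ≤ u / ρ + 1 := by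
  have ha0 : 0 < a := by linarith
  have hρ : 0 < ρ := lt_of_lt_of_le (by positivity) h3
  refine ⟨div_le_div_of_nonneg_right h1 hρ.le, ?_⟩
  rw [div_le_iff₀ hρ, add_mul, div_mul_cancel₀ _ hρ.ne', one_mul]
  have h4 : (a ^ 90)⁻¹ ≤ (a ^ 2)⁻¹ := by
    refine inv_anti₀ (by positivity) ?_
    exact pow_le_pow_right₀ (by linarith) (by norm_num)
  linarith

theorem st_CAPM : ST_CAPM := by
  refine ⟨2, ?_⟩
  intro N r l hN hA hr hub
  have ha : (2 : ℝ) ≤ N := by exact_mod_cast hN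
  have e2 : (N : ℝ) ^ (-2 : ℝ) = ((N : ℝ) ^ 2)⁻¹ := by
    have := capm_pow (show 1 ≤ N by omega) 2
    exact_mod_cast this
  have e90 : (N : ℝ) ^ (-90 : ℝ) = ((N : ℝ) ^ 90)⁻¹ := by
    have := capm_pow (show 1 ≤ N by omega) 90
    exact_mod_cast this
  have e100 : (N : ℝ) ^ (-100 : ℝ) = ((N : ℝ) ^ 100)⁻¹ := by
    have := capm_pow (show 1 ≤ N by omega) 100
    exact_mod_cast this
  have e2' : (N : ℝ) ^ (2 : ℝ) = (N : ℝ) ^ 2 := by
    exact_mod_cast Real.rpow_natCast (N : ℝ) 2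
  have hm : modl N l = fun y => max (l y) ((N : ℝ) ^ 100)⁻¹ := by
    unfold modl
    rw [e100]
  rw [e2] at hr
  rw [e2'] at hub
  have hkey : ∀ z x, z ≤ x → x < N → RR r (modl N l) z x ≤ RR r l z x + ((N : ℝ) ^ 90)⁻¹ := by
    intro z x h1 h2
    rw [hm]
    exact gs_key ha hA hr hub z x h1 h2
  refine ⟨?_, ?_, ?_⟩
  · intro z x h1 h2
    rw [e90]
    exact ⟨capm_lower hA h2, hkey z x h1 h2⟩
  · intro z y h1 h2
    exact capm_div ha (capm_lower hA (by omega)) (hkey z y h1 (by omega))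
      (hr (y + 1) (by omega) h2)
  · intro z y h0 h1 h2
    exact capm_div ha (capm_lower hA h2) (hkey z y h1 h2) (hr z h0 (by omega))

end Pool.Agent.Helper98.EX
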