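import Pool.Agent.Helper98.EY.StmtsB

set_option autoImplicit false

/-! # Mirror symmetry of the environment conditions (module IMIR) -/

namespace Pool.Agent.Helper98.EX

open Finset

theorem imir_cast {N y : ℕ} (h : y < N) : ((N - 1 - y : ℕ) : ℝ) = (N : ℝ) - 1 - y := by
  rw [Nat.cast_sub (by omega), Nat.cast_sub (by omega), Nat.cast_one]

theorem imir_RR (N : ℕ) (r l : ℕ → ℝ) (z y : ℕ) (h : y < N) :
    RR (mirr N r) (mirr N l) z y = RR r l (N - 1 - y) (N - 1 - z) := by
  unfold RR mirr
  refine Finset.prod_nbij' (fun b => N - b) (fun b => N - b) ?_ ?_ ?_ ?_ ?_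
  · intro b hb
    rw [Finset.mem_Ioc] at hb ⊢
    omega
  · intro b hb
    rw [Finset.mem_Ioc] at hb ⊢
    omega
  · intro b hb
    rw [Finset.mem_Ioc] at hb
    omega
  · intro b hb
    rw [Finset.mem_Ioc] at hb
    omega
  · intro b _
    rfl

theorem imir_vp (N : ℕ) (r l : ℕ → ℝ) (z y : ℕ) (h : y + 1 < N) :
    vp (mirr N r) (mirr N l) z y = vh r l (N - 1 - y) (N - 1 - z) := by
  unfold vp vh
  rw [imir_RR N r l z y (by omega)]
  have h1 : mirr N r (y + 1) = r (N - 1 - y) := by
    unfold mirr
    rw [show N - (y + 1) = N - 1 - y by omega]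
  rw [h1]

theorem imir_vh (N : ℕ) (r l : ℕ → ℝ) (z y : ℕ) (hz : z ≤ y) (h : y < N) :
    vh (mirr N r) (mirr N l) z y = vp r l (N - 1 - y) (N - 1 - z) := by
  unfold vp vh
  rw [imir_RR N r l z y h]
  have h1 : mirr N r z = r (N - 1 - z + 1) := by
    unfold mirr
    rw [show N - 1 - z + 1 = N - z by omega]
  rw [h1]

theorem imir_shal (N : ℕ) (r l : ℕ → ℝ) (D : ℝ) (w g : ℕ) (hg : 6 * w ≤ g) (hgN : g ≤ N)
    (h : Shal r l D w g) : Shal (mirr N r) (mirr N l) D w (N - g) := by
  refine ⟨?_, ?_⟩
  · intro z x hz hzx hx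
    rw [imir_RR N r l z x (by omega)]
    exact h.1 _ _ (by omega) (by omega) (by omega)
  · intro b hb1 hb2
    exact h.2 (N - b) (by omega) (by omega)

theorem imir_sum (N : ℕ) (f : ℕ → ℕ → ℝ) :
    ∑ y ∈ Finset.range (N - 1), ∑ z ∈ Finset.range (y + 1), f (N - 1 - y) (N - 1 - z) =
      ∑ z ∈ Finset.Ico 1 N, ∑ y ∈ Finset.Ico z N, f z y := by
  refine Finset.sum_nbij' (fun y => N - 1 - y) (fun z => N - 1 - z) ?_ ?_ ?_ ?_ ?_
  · intro y hy
    rw [Finset.mem_range] at hy
    rw [Finset.mem_Ico]
    omega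
  · intro y hy
    rw [Finset.mem_Ico] at hy
    rw [Finset.mem_range]
    omega
  · intro y hy
    rw [Finset.mem_range] at hy
    omega
  · intro y hy
    rw [Finset.mem_Ico] at hy
    omega
  · intro y hy
    rw [Finset.mem_range] at hy
    refine Finset.sum_nbij' (fun z => N - 1 - z) (fun z => N - 1 - z) ?_ ?_ ?_ ?_ ?_
    · intro z hz
      rw [Finset.mem_range] at hz
      rw [Finset.mem_Ico]
      omega
    · intro z hz
      rw [Finset.mem_Ico] at hz
      rw [Finset.mem_range]
      omega
    · intro z hz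
      rw [Finset.mem_range] at hz
      omega
    · intro z hz
      rw [Finset.mem_Ico] at hz
      omega
    · intro z _
      rfl

theorem imir_sum' (N : ℕ) (f : ℕ → ℕ → ℝ) :
    ∑ z ∈ Finset.Ico 1 N, ∑ y ∈ Finset.Ico z N, f (N - 1 - y) (N - 1 - z) =
      ∑ y ∈ Finset.range (N - 1), ∑ z ∈ Finset.range (y + 1), f z y := by
  rw [← imir_sum N (fun a b => f (N - 1 - b) (N - 1 - a))]
  refine Finset.sum_congr rfl ?_
  intro y hy
  rw [Finset.mem_range] at hy
  refine Finset.sum_congr rfl ?_
  intro z hz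
  rw [Finset.mem_range] at hz
  rw [show N - 1 - (N - 1 - z) = z by omega, show N - 1 - (N - 1 - y) = y by omega]

theorem imir_GE (N : ℕ) (r l : ℕ → ℝ) (w : ℕ) (C1 : ℝ) (h : GE N r l w C1) :
    GE N (mirr N r) (mirr N l) w C1 where
  adm := by
    intro x hx hxN
    exact h.adm (N - x) (by omega) (by omega)
  pos := fun x => h.pos (N - x)
  low := by
    intro x hx hxN
    exact h.low (N - x) (by omega) (by omega)
  rlow := by
    intro x hx hxN
    exact h.rlow (N - x) (by omega) (by omega)
  far := by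
    intro z x hz hx
    rw [imir_RR N r l z x hx]
    exact h.far _ _ (by omega) (by omega)
  w1 := h.w1
  wlog := h.wlog
  pp := by
    intro z y z' y' h1 h2 h3 h4 h5
    rw [imir_vp N r l z y (by omega), imir_vp N r l z' y' h4, mul_comm]
    refine h.hh _ _ _ _ (by omega) (by omega) (by omega) (by omega) (by omega) ?_
    rw [imir_cast (by omega), imir_cast (by omega)]
    linarith
  hh := by
    intro z y z' y' h0 h1 h2 h3 h4 h5
    rw [imir_vh N r l z y h1 (by omega), imir_vh N r l z' y' h3 h4, mul_comm]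
    refine h.pp _ _ _ _ (by omega) (by omega) (by omega) (by omega) ?_
    rw [imir_cast (by omega), imir_cast (by omega)]
    linarith
  hp := by
    intro a z y b h0 h1 h2 h3 h4 h5
    rw [imir_vh N r l a z h1 (by omega), imir_vp N r l y b h4, mul_comm]
    refine h.hp _ _ _ _ (by omega) (by omega) (by omega) (by omega) (by omega) ?_
    rw [imir_cast (by omega), imir_cast (by omega)]
    linarith
  shal := by
    intro u hu1 hu2
    obtain ⟨g, hg1, hg2, hg3⟩ := h.shal (N + 1 - u - ⌈Real.log N ^ 6⌉₊) (by omega) (by omega)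
    exact ⟨N - g, by omega, by omega, imir_shal N r l _ w g (by omega) (by omega) hg3⟩
  sp := by
    have h1 : ∑ y ∈ Finset.range (N - 1), ∑ z ∈ Finset.range (y + 1),
        vp (mirr N r) (mirr N l) z y = ∑ y ∈ Finset.range (N - 1), ∑ z ∈ Finset.range (y + 1),
        vh r l (N - 1 - y) (N - 1 - z) := by
      refine Finset.sum_congr rfl ?_
      intro y hy
      rw [Finset.mem_range] at hy
      refine Finset.sum_congr rfl ?_
      intro z _
      exact imir_vp N r l z y (by omega)
    rw [h1, imir_sum N (vh r l)]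
    exact h.sh
  sh := by
    have h1 : ∑ z ∈ Finset.Ico 1 N, ∑ y ∈ Finset.Ico z N,
        vh (mirr N r) (mirr N l) z y = ∑ z ∈ Finset.Ico 1 N, ∑ y ∈ Finset.Ico z N,
        vp r l (N - 1 - y) (N - 1 - z) := by
      refine Finset.sum_congr rfl ?_
      intro z _
      refine Finset.sum_congr rfl ?_
      intro y hy
      rw [Finset.mem_Ico] at hy
      exact imir_vh N r l z y hy.1 hy.2
    rw [h1, imir_sum' N (vp r l)]
    exact h.sp

theorem st_IMIR : ST_IMIR := by
  intro N r l
  refine ⟨fun z y _ h => imir_RR N r l z y h, fun z y _ h => imir_vp N r l z y h,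
    fun z y _ h1 h2 => imir_vh N r l z y h1 h2, fun w C1 h => imir_GE N r l w C1 h,
    ?_, ?_, ?_, ?_⟩
  · intro x0 w h1 h2 h3 h
    refine ⟨?_, ?_⟩
    · intro z x hz hzx hx
      rw [imir_RR N r l z x (by omega)]
      exact h.near _ _ (by omega) (by omega) (by omega)
    · intro b hb1 hb2
      exact h.rlow (N - b) (by omega) (by omega)
  · intro p R v hp h
    refine ⟨?_, ?_⟩
    · intro z y hzy hy h1 h2
      rw [imir_vp N r l z y hy]
      rw [imir_cast hp] at h1 h2
      refine h.2 _ _ (by omega) (by omega) (by omega) ?_ ?_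
      · rw [imir_cast (by omega)]
        linarith
      · rw [imir_cast (by omega)]
        linarith
    · intro z y hz hzy hy h1 h2
      rw [imir_vh N r l z y hzy hy]
      rw [imir_cast hp] at h1 h2
      refine h.1 _ _ (by omega) (by omega) ?_ ?_
      · rw [imir_cast (by omega)]
        linarith
      · rw [imir_cast (by omega)]
        linarith
  · intro κ h A B h1 h2 h3 h4
    obtain ⟨y, hy1, hy2, hy3, hy4⟩ := h (N - 1 - B) (N - 1 - A) (by omega) (by omega) (by omega)
      (by
        rw [imir_cast (by omega), imir_cast (by omega)]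
        linarith)
    refine ⟨N - 1 - y, by omega, by omega, ?_, ?_⟩
    · rw [imir_vp N r l _ B h3, show N - 1 - (N - 1 - y) = y by omega]
      exact hy4
    · rw [imir_vh N r l A _ (by omega) (by omega), show N - 1 - (N - 1 - y) = y by omega]
      exact hy3
  · intro A B θ hAB hBN h a z y b h1 h2 h3 h4 h5 h6
    rw [imir_vh N r l a z h2 (by omega), imir_vp N r l y b (by omega)]
    intro h7
    refine h (N - 1 - b) (N - 1 - y) (N - 1 - z) (N - 1 - a) (by omega) (by omega) (by omega)
      (by omega) (by omega) ?_ ⟨h7.2, h7.1⟩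
    rw [imir_cast (by omega), imir_cast (by omega)]
    linarith

end Pool.Agent.Helper98.EX
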