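import Pool.Agent.Helper98.EY.StmtsB

set_option autoImplicit false

/-! # One particle that starts at the left end of a closed window (module MOVE2) -/

namespace Pool.Agent.Helper98.EX

open Finset

lemma move2_RR_nonneg {N : ℕ} {r l : ℕ → ℝ} (h : Adm N r l) (z : ℕ) {y : ℕ} (hy : y < N) :
    0 ≤ RR r l z y := by
  unfold RR
  refine Finset.prod_nonneg (fun b hb => ?_)
  rw [Finset.mem_Ioc] at hb
  obtain ⟨h1, _, h3, _⟩ := h b (by omega) (by omega)
  exact div_nonneg h3 h1.le

lemma move2_RR_succ {r l : ℕ → ℝ} {z y : ℕ} (hz : z ≤ y) :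
    RR r l z (y + 1) = RR r l z y * (l (y + 1) / r (y + 1)) := by
  unfold RR
  rw [← Finset.insert_Ioc_right_eq_Ioc_add_one hz, Finset.prod_insert (by simp)]
  ring

lemma move2_nonneg {N : ℕ} {r l : ℕ → ℝ} (h : Adm N r l) {η0 : ℝ} (hη : 0 < η0) (w a : ℕ)
    {y : ℕ} (hy : y + 1 < N) : 0 ≤ atb r l η0 w a y := by
  unfold atb vp
  refine Finset.sum_nonneg (fun d _ => ?_)
  obtain ⟨h1, _, _, _⟩ := h (y + 1) (by omega) hy
  have := move2_RR_nonneg h (y - d) (show y < N by omega)
  positivity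

/-- `r_{y+1} atb y` as a plain sum -/
lemma move2_r_atb {N : ℕ} {r l : ℕ → ℝ} (h : Adm N r l) (η0 : ℝ) (w a : ℕ) {y : ℕ}
    (hy : y + 1 < N) : r (y + 1) * atb r l η0 w a y =
      ∑ d ∈ Finset.range (min w (y + 1 - a)), (1 + η0) ^ (d + 1) * RR r l (y - d) y := by
  unfold atb vp
  rw [Finset.mul_sum]
  refine Finset.sum_congr rfl (fun d _ => ?_)
  obtain ⟨h1, _, _, _⟩ := h (y + 1) (by omega) hy
  field_simp

lemma move2_RR_self (r l : ℕ → ℝ) (y : ℕ) : RR r l y y = 1 := by
  unfold RR; simp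

/-- lower bound for `r_{y+1} atb y` at the left end -/
lemma move2_low0 {N : ℕ} {r l : ℕ → ℝ} (h : Adm N r l) {η0 : ℝ} (hη : 0 < η0) {w a : ℕ}
    (hw : 1 ≤ w) {y : ℕ} (ha : a ≤ y) (hy : y + 1 < N) :
    1 + η0 ≤ r (y + 1) * atb r l η0 w a y := by
  rw [move2_r_atb h η0 w a hy]
  have hmin : 0 < min w (y + 1 - a) := by omega
  have h0 := Finset.single_le_sum (f := fun d => (1 + η0) ^ (d + 1) * RR r l (y - d) y)
    (s := Finset.range (min w (y + 1 - a))) (fun d _ => by
      have := move2_RR_nonneg h (y - d) (show y < N by omega)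
      positivity) (Finset.mem_range.mpr hmin)
  simp only [Nat.sub_zero, move2_RR_self, zero_add, pow_one, mul_one] at h0
  exact h0

/-- the recursion for `atb` -/
lemma move2_rec {N : ℕ} {r l : ℕ → ℝ} (h : Adm N r l) {η0 : ℝ} (hη : 0 < η0) {w a : ℕ}
    {y : ℕ} (hay : a ≤ y) (hy : y + 2 < N)
    (hfar : a + w ≤ y + 1 → (1 + η0) ^ (w + 1) * RR r l (y + 1 - w) (y + 1) ≤ η0 / 4) :
    (1 + η0) * (1 + l (y + 1) * atb r l η0 w a y) - η0 / 4 ≤
      r (y + 2) * atb r l η0 w a (y + 1) := by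
  have e1 := move2_r_atb h η0 w a (show (y + 1) + 1 < N by omega)
  have e0 := move2_r_atb h η0 w a (show y + 1 < N by omega)
  obtain ⟨hr1, _, hl1, _⟩ := h (y + 1) (by omega) (by omega)
  have e2 : (1 + η0) * (l (y + 1) * atb r l η0 w a y) =
      ∑ d ∈ Finset.range (min w (y + 1 - a)),
        (1 + η0) ^ (d + 1 + 1) * RR r l (y + 1 - (d + 1)) (y + 1) := by
    have e3 : l (y + 1) * atb r l η0 w a y =
        l (y + 1) / r (y + 1) * (r (y + 1) * atb r l η0 w a y) := by
      field_simp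
    rw [e3, e0, Finset.mul_sum, Finset.mul_sum]
    refine Finset.sum_congr rfl (fun d _ => ?_)
    have e4 : y + 1 - (d + 1) = y - d := by omega
    rw [e4, move2_RR_succ (show y - d ≤ y by omega)]
    ring
  have e5 : (1 + η0) * (1 + l (y + 1) * atb r l η0 w a y) =
      ∑ d ∈ Finset.range (min w (y + 1 - a) + 1),
        (1 + η0) ^ (d + 1) * RR r l (y + 1 - d) (y + 1) := by
    rw [Finset.sum_range_succ', mul_add, e2]
    simp only [Nat.sub_zero, move2_RR_self, zero_add, pow_one, mul_one]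
    ring
  rw [e5]
  have e6 : r (y + 2) * atb r l η0 w a (y + 1) = ∑ d ∈ Finset.range (min w (y + 1 + 1 - a)),
      (1 + η0) ^ (d + 1) * RR r l (y + 1 - d) (y + 1) := e1
  rw [e6]
  rcases lt_or_ge (y + 1) (a + w) with hyw | hyw
  · have m1 : min w (y + 1 - a) + 1 = y + 1 - a + 1 := by omega
    have m2 : min w (y + 1 + 1 - a) = y + 1 - a + 1 := by omega
    rw [m1, m2]
    linarith
  · have m1 : min w (y + 1 - a) + 1 = w + 1 := by omega
    have m2 : min w (y + 1 + 1 - a) = w := by omega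
    rw [m1, m2, Finset.sum_range_succ]
    have := hfar hyw
    linarith

lemma move2_cond {N : ℕ} {r l : ℕ → ℝ} {η0 as : ℝ} {w a u' : ℕ} (hAdm : Adm N r l)
    (hη : 0 < η0) (hw : 1 ≤ w) (has : 0 < as) (hu' : u' < N)
    (hat : ∀ y, a ≤ y → y < u' → atb r l η0 w a y ≤ as)
    (hfar : ∀ y, a + w ≤ y → y < u' → (1 + η0) ^ (w + 1) * RR r l (y - w) y ≤ η0 / 4)
    (y : ℕ) (hAy : a ≤ y) (hyu : y < u') :
    (1 + η0 / (4 * as) * atb r l η0 w a y) *
      (η0 / (4 * as) + (if y = a then 0 else l y * (η0 / (4 * as) * atb r l η0 w a (y - 1)))) ≤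
    r (y + 1) * (η0 / (4 * as) * atb r l η0 w a y) := by
  have hy1 : y + 1 < N := by omega
  have ha := move2_nonneg hAdm hη w a hy1
  have hb := hat y hAy hyu
  set lam := η0 / (4 * as) with hlam
  have hlam0 : 0 < lam := by positivity
  have hla : lam * atb r l η0 w a y ≤ η0 / 4 := by
    calc lam * atb r l η0 w a y ≤ lam * as := mul_le_mul_of_nonneg_left hb hlam0.le
      _ = η0 / 4 := by rw [hlam]; field_simp
  have hla0 : 0 ≤ lam * atb r l η0 w a y := mul_nonneg hlam0.le ha
  by_cases hyA : y = a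
  · rw [if_pos hyA, add_zero]
    have h1 := move2_low0 hAdm hη hw hAy hy1
    have h2 : (1 + lam * atb r l η0 w a y) * lam ≤ (1 + η0) * lam :=
      mul_le_mul_of_nonneg_right (by linarith) hlam0.le
    have h3 : (1 + η0) * lam ≤ (r (y + 1) * atb r l η0 w a y) * lam :=
      mul_le_mul_of_nonneg_right h1 hlam0.le
    calc _ ≤ (r (y + 1) * atb r l η0 w a y) * lam := h2.trans h3
      _ = _ := by ring
  · rw [if_neg hyA]
    obtain ⟨x, rfl⟩ : ∃ x, y = x + 1 := ⟨y - 1, by omega⟩
    have e : x + 1 - 1 = x := by omega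
    rw [e]
    have h1 := move2_rec hAdm hη (show a ≤ x by omega) (show x + 2 < N by omega)
      (fun hwx => hfar (x + 1) hwx hyu)
    obtain ⟨_, _, hl1, _⟩ := hAdm (x + 1) (by omega) (by omega)
    have hx0 := move2_nonneg hAdm hη w a (show x + 1 < N by omega)
    set X := 1 + l (x + 1) * atb r l η0 w a x with hX
    have hX1 : 1 ≤ X := by
      have := mul_nonneg hl1 hx0
      rw [hX]; linarith
    have e2 : lam + l (x + 1) * (lam * atb r l η0 w a x) = lam * X := by rw [hX]; ring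
    rw [e2]
    have h2 : (1 + lam * atb r l η0 w a (x + 1)) * (lam * X) ≤ (1 + η0 / 4) * (lam * X) :=
      mul_le_mul_of_nonneg_right (by linarith) (by positivity)
    have h3 : (1 + η0 / 4) * (lam * X) ≤ lam * ((1 + η0) * X - η0 / 4) := by
      have : 0 ≤ lam * (η0 * (X - 1)) := by
        have : 0 ≤ X - 1 := by linarith
        positivity
      nlinarith [mul_pos hlam0 hη, mul_nonneg (mul_pos hlam0 hη).le (by linarith : (0:ℝ) ≤ X)]
    have h4 : lam * ((1 + η0) * X - η0 / 4) ≤ lam * (r (x + 2) * atb r l η0 w a (x + 1)) :=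
      mul_le_mul_of_nonneg_left h1 hlam0.le
    calc _ ≤ lam * (r (x + 2) * atb r l η0 w a (x + 1)) := h2.trans (h3.trans h4)
      _ = _ := by ring

theorem st_MOVE2 (h1 : ST_WALK) : ST_MOVE2 := by
  intro N r l η0 as eps w S a m E τ η hadm hpos hη hη1 hw has heps ham hmE hEN haS hES hS
    hcnt hocc hatl hrr hfar
  set lam : ℝ := η0 / (4 * as) with hlam
  have hlam0 : 0 ≤ lam := by rw [hlam]; positivity
  let v : ℕ → ℝ := fun y => if y < m + w then lam * atb r l η0 w a y else 0
  have hv : ∀ y, y < m + w → v y = lam * atb r l η0 w a y := fun y hy => if_pos hy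
  have hatl0 : ∀ y, y < m + w → 0 ≤ atb r l η0 w a y := fun y hy =>
    move2_nonneg hadm hη w a (by omega)
  have hv0 : ∀ y, 0 ≤ v y := by
    intro y
    by_cases hy : y < m + w
    · rw [hv y hy]; exact mul_nonneg hlam0 (hatl0 y hy)
    · simp only [v, if_neg hy]; exact le_rfl
  have hwalk := h1 N r l v lam S a E m (m + w) a τ η hadm hpos le_rfl (by omega) (by omega)
    (by omega) hEN haS hES hS hcnt hocc hv0 hlam0 (by
      intro y hy hy'
      have hk := move2_cond hadm hη hw has (show m + w < N by omega) hatl hrr y hy hy'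
      rw [← hlam] at hk
      rw [hv y hy']
      by_cases hya : y = a
      · rw [if_pos hya] at hk ⊢
        exact hk
      · rw [if_neg hya] at hk ⊢
        rw [hv (y - 1) (by omega)]
        exact hk)
  refine hwalk.trans (add_le_add ?_ ?_)
  · refine Real.exp_le_exp.2 ?_
    have hs1 : ∑ y ∈ Finset.Ico a (m + w), v y =
        lam * ∑ y ∈ Finset.Ico a (m + w), atb r l η0 w a y := by
      rw [Finset.mul_sum]
      refine Finset.sum_congr rfl fun y hy => ?_
      rw [Finset.mem_Ico] at hy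
      exact hv y hy.2
    rw [hs1]
    have hs4 : lam * (∑ y ∈ Finset.Ico a (m + w), atb r l η0 w a y - (τ : ℝ) / (2 * N)) =
        lam * ∑ y ∈ Finset.Ico a (m + w), atb r l η0 w a y - lam * τ / (2 * N) := by ring
    rw [hs4]
  · have hb : ∀ z ∈ Finset.Ico a m, RR r l z (m + w) ≤ eps := by
      intro z hz
      rw [Finset.mem_Ico] at hz
      exact hfar z (m + w) (by omega) (by omega)
    have hs := Finset.sum_le_card_nsmul _ _ _ hb
    rw [Nat.card_Ico, nsmul_eq_mul] at hs
    refine hs.trans ?_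
    have hcast : ((m - a : ℕ) : ℝ) ≤ N := by exact_mod_cast (by omega : m - a ≤ N)
    exact mul_le_mul_of_nonneg_right hcast heps

end Pool.Agent.Helper98.EX
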